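import Pool.Agent.H161R2.UCAsy

set_option autoImplicit false

/-!
# Poonen's strengthening for random families: strict versions of the lemmas of `H161R2.UC`
(adapted by helper912 from the files of helper161).
-/

namespace Pool.Agent.W912.PB

open Finset Filter Pool.Agent.H161R2.UC
open scoped Classical

/-- some element lies in more than half of the members, or the family is the whole power set, or it
has at most two members -/
def Str {m n : ℕ} (M : Mat m n) : Prop :=
  (∃ x : Fin n, (fam M).card < 2 * ((fam M).filter (fun A => x ∈ A)).card) ∨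
    fam M = univ ∨ (fam M).card ≤ 2

lemma str_of_W {m n : ℕ} (M : Mat m n) (h : 0 < W M) : Str M := by
  left
  by_contra hcon
  push Not at hcon
  have h1 : ∑ x : Fin n, ((fam M).filter (fun A => x ∈ A)).card = ∑ A ∈ fam M, A.card := by
    simp_rw [Finset.card_filter]
    rw [Finset.sum_comm]
    refine Finset.sum_congr rfl fun A _ => ?_
    rw [← Finset.card_filter]
    congr 1
    ext x; simp
  have h2 : ∑ x : Fin n, 2 * ((fam M).filter (fun A => x ∈ A)).card ≤ ∑ x : Fin n, (fam M).card :=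
    Finset.sum_le_sum fun x _ => hcon x
  rw [← Finset.mul_sum, h1, Finset.sum_const, Finset.card_univ, Fintype.card_fin, smul_eq_mul] at h2
  unfold W at h
  rw [Finset.sum_sub_distrib, ← Finset.mul_sum, Finset.sum_const, nsmul_eq_mul] at h
  have h3 : (2 : ℝ) * ((∑ A ∈ fam M, A.card : ℕ) : ℝ) ≤ n * (fam M).card := by exact_mod_cast h2
  push_cast at h3
  nlinarith

lemma str_of_common {m n : ℕ} (_hm : 0 < m) (M : Mat m n) (h : ∃ x, ∀ i, M i x = true) :
    Str M := by
  by_cases hc : (fam M).card ≤ 2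
  · exact Or.inr (Or.inr hc)
  left
  obtain ⟨x, hx⟩ := h
  refine ⟨x, ?_⟩
  have h1 : (fam M).filter (fun A => ¬ x ∈ A) = {∅} := by
    ext A
    rw [Finset.mem_filter, Finset.mem_singleton, mem_fam]
    constructor
    · rintro ⟨⟨I, rfl⟩, hA⟩
      rw [mem_unionOf] at hA
      push Not at hA
      have hI : I = ∅ := by
        rw [Finset.eq_empty_iff_forall_notMem]
        intro i hi
        exact hA i hi (hx i)
      subst hI
      ext y; simp [mem_unionOf]
    · rintro rfl
      exact ⟨⟨∅, by ext y; simp [mem_unionOf]⟩, by simp⟩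
  have h2 := Finset.card_filter_add_card_filter_not (s := fam M) (fun A => x ∈ A)
  rw [h1, Finset.card_singleton] at h2
  omega

lemma sum_choose_lt (m j : ℕ) (hj : 0 < j) (hm : 5 * j * (j.factorial * 2 ^ j) + 2 * j ≤ m) :
    5 * ∑ k ∈ range j, (m.choose k : ℝ) < (m.choose j : ℝ) := by
  have hm1 : 1 ≤ m := by omega
  have h1 : ∑ k ∈ range j, (m.choose k : ℝ) ≤ j * (m : ℝ) ^ (j - 1) := by
    calc ∑ k ∈ range j, (m.choose k : ℝ) ≤ ∑ k ∈ range j, (m : ℝ) ^ (j - 1) := by
          refine Finset.sum_le_sum fun k hk => ?_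
          rw [Finset.mem_range] at hk
          have : m.choose k ≤ m ^ (j - 1) :=
            (Nat.choose_le_pow m k).trans (Nat.pow_le_pow_right hm1 (by omega))
          exact_mod_cast this
      _ = _ := by simp
  have h2 : (m : ℝ) ^ j ≤ (j.factorial * 2 ^ j) * (m.choose j : ℝ) := by
    have h3 := Nat.pow_le_choose (α := ℝ) j m
    have h4 : (0:ℝ) < (j.factorial : ℝ) := by exact_mod_cast j.factorial_pos
    rw [div_le_iff₀ h4] at h3
    have h5 : (m : ℝ) ≤ 2 * ((m + 1 - j : ℕ) : ℝ) := by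
      have : m ≤ 2 * (m + 1 - j) := by omega
      exact_mod_cast this
    calc (m : ℝ) ^ j ≤ (2 * ((m + 1 - j : ℕ) : ℝ)) ^ j := pow_le_pow_left₀ (by positivity) h5 _
      _ = 2 ^ j * ((m + 1 - j : ℕ) : ℝ) ^ j := by rw [mul_pow]
      _ ≤ 2 ^ j * ((m.choose j : ℝ) * (j.factorial : ℝ)) := by
          refine mul_le_mul_of_nonneg_left ?_ (by positivity)
          exact_mod_cast h3
      _ = _ := by ring
  have h6 : (5 * j * (j.factorial * 2 ^ j) : ℝ) * (m : ℝ) ^ (j - 1) < (m : ℝ) ^ j := by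
    have h7 : (m : ℝ) ^ j = m * (m : ℝ) ^ (j - 1) := by
      rw [← pow_succ', Nat.sub_add_cancel hj]
    rw [h7]
    have hm1r : (0 : ℝ) < m := by exact_mod_cast hm1
    refine mul_lt_mul_of_pos_right ?_ (by positivity)
    have : 5 * j * (j.factorial * 2 ^ j) < m := by omega
    exact_mod_cast this
  have h8 : (0:ℝ) < (j.factorial * 2 ^ j : ℝ) := by
    have : (0:ℝ) < (j.factorial : ℝ) := by exact_mod_cast j.factorial_pos
    positivity
  have h9 : (j.factorial * 2 ^ j : ℝ) * (5 * ∑ k ∈ range j, (m.choose k : ℝ)) <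
      (j.factorial * 2 ^ j : ℝ) * (m.choose j : ℝ) := by
    calc (j.factorial * 2 ^ j : ℝ) * (5 * ∑ k ∈ range j, (m.choose k : ℝ))
        ≤ (j.factorial * 2 ^ j : ℝ) * (5 * (j * (m : ℝ) ^ (j - 1))) := by
          refine mul_le_mul_of_nonneg_left ?_ h8.le
          linarith
      _ = (5 * j * (j.factorial * 2 ^ j) : ℝ) * (m : ℝ) ^ (j - 1) := by ring
      _ < _ := h6.trans_le h2
  exact lt_of_mul_lt_mul_left h9 h8.le

/-- deterministic criterion: the unions of `j` rows are large and distinct -/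
lemma str_of_large {m n j : ℕ} (hn : 0 < n) (hj : 0 < j)
    (hm : 5 * j * (j.factorial * 2 ^ j) + 2 * j ≤ m) (M : Mat m n)
    (h1 : ∀ I ∈ powersetCard j (univ : Finset (Fin m)), ¬ 5 * (unionOf M I).card < 3 * n)
    (h2 : ∀ I ∈ powersetCard j (univ : Finset (Fin m)),
      ∀ I' ∈ powersetCard j (univ : Finset (Fin m)), I ≠ I' → unionOf M I ≠ unionOf M I') :
    Str M := by
  apply str_of_W
  rw [W_split, sub_pos]
  have hlow : Low M ≤ n * ∑ k ∈ range j, (m.choose k : ℝ) := by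
    unfold Low
    have hsub : (fam M).filter (fun A => 2 * A.card < n) ⊆
        (range j).biUnion (fun k => (powersetCard k (univ : Finset (Fin m))).image (unionOf M)) := by
      intro A hA
      rw [Finset.mem_filter, mem_fam] at hA
      obtain ⟨⟨I, rfl⟩, hA⟩ := hA
      rw [Finset.mem_biUnion]
      by_cases hI : I.card < j
      · exact ⟨I.card, Finset.mem_range.mpr hI,
          Finset.mem_image.mpr ⟨I, by simp [mem_powersetCard], rfl⟩⟩
      · exfalso
        obtain ⟨I', hI', hc⟩ := Finset.exists_subset_card_eq (not_lt.mp hI)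
        have h3 := h1 I' (by simp [mem_powersetCard, hc])
        have h4 := Finset.card_le_card (unionOf_mono M hI')
        omega
    have hc : ((fam M).filter (fun A => 2 * A.card < n)).card ≤ ∑ k ∈ range j, m.choose k := by
      refine (Finset.card_le_card hsub).trans (Finset.card_biUnion_le.trans
        (Finset.sum_le_sum fun j _ => ?_))
      refine Finset.card_image_le.trans ?_
      rw [Finset.card_powersetCard, Finset.card_univ, Fintype.card_fin]
    calc ∑ A ∈ (fam M).filter (fun A => 2 * A.card < n), ((n : ℝ) - 2 * A.card)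
        ≤ ∑ A ∈ (fam M).filter (fun A => 2 * A.card < n), (n : ℝ) := by
          refine Finset.sum_le_sum fun A _ => ?_
          have : (0:ℝ) ≤ A.card := by positivity
          linarith
      _ = n * ((fam M).filter (fun A => 2 * A.card < n)).card := by
          rw [Finset.sum_const, nsmul_eq_mul, mul_comm]
      _ ≤ n * ∑ k ∈ range j, (m.choose k : ℝ) := by
          refine mul_le_mul_of_nonneg_left ?_ (by positivity)
          exact_mod_cast hc
  refine hlow.trans_lt ?_
  have hhigh : (m.choose j : ℝ) * (n / 5) ≤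
      ∑ A ∈ (fam M).filter (fun A => ¬ 2 * A.card < n), (2 * (A.card : ℝ) - n) := by
    calc (m.choose j : ℝ) * (n / 5) = ∑ I ∈ powersetCard j (univ : Finset (Fin m)), (n : ℝ) / 5 := by
          rw [Finset.sum_const, Finset.card_powersetCard, Finset.card_univ, Fintype.card_fin,
            nsmul_eq_mul]
      _ ≤ ∑ I ∈ powersetCard j (univ : Finset (Fin m)), (2 * ((unionOf M I).card : ℝ) - n) := by
          refine Finset.sum_le_sum fun I hI => ?_
          have h3 := not_lt.mp (h1 I hI)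
          have h4 : (3:ℝ) * n ≤ 5 * ((unionOf M I).card : ℝ) := by exact_mod_cast h3
          linarith
      _ = ∑ A ∈ (powersetCard j (univ : Finset (Fin m))).image (unionOf M),
            (2 * (A.card : ℝ) - n) := by
          rw [Finset.sum_image]
          intro I hI I' hI' he
          by_contra hne
          exact h2 I hI I' hI' hne he
      _ ≤ _ := by
          refine Finset.sum_le_sum_of_subset_of_nonneg ?_ ?_
          · intro A hA
            obtain ⟨I, hI, rfl⟩ := Finset.mem_image.mp hA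
            rw [Finset.mem_filter, mem_fam]
            have h3 := h1 I hI
            exact ⟨⟨I, rfl⟩, by omega⟩
          · intro A hA _
            rw [Finset.mem_filter] at hA
            exact high_nonneg A hA.2
  refine lt_of_lt_of_le ?_ hhigh
  have h5 := sum_choose_lt m j hj hm
  have hn' : (0:ℝ) < n := by exact_mod_cast hn
  nlinarith

lemma Pr_reg1 {p : ℝ} (h0 : 0 < p) (h1 : p < 1) {m n j : ℕ} (hn : 0 < n) (hj : 0 < j)
    (hm : 5 * j * (j.factorial * 2 ^ j) + 2 * j ≤ m) (hq : (1 - p) ^ j ≤ 1 / 100) :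
    Pr p (fun M : Mat m n => ¬ Str M) ≤
      (m : ℝ) ^ j * (1 / 3) ^ n + (m : ℝ) ^ (2 * j) * (1 - (1 - p) ^ j * p) ^ n := by
  have hq0 : 0 ≤ (1 - p) ^ j := pow_nonneg (by linarith) _
  have hch : ((powersetCard j (univ : Finset (Fin m))).card : ℝ) ≤ (m : ℝ) ^ j := by
    rw [Finset.card_powersetCard, Finset.card_univ, Fintype.card_fin]
    exact_mod_cast Nat.choose_le_pow m j
  calc Pr p (fun M : Mat m n => ¬ Str M)
      ≤ Pr p (fun M : Mat m n =>
          (∃ I ∈ powersetCard j (univ : Finset (Fin m)), 5 * (unionOf M I).card < 3 * n) ∨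
          (∃ II ∈ ((powersetCard j (univ : Finset (Fin m))) ×ˢ
            (powersetCard j (univ : Finset (Fin m)))).filter (fun II => II.1 ≠ II.2),
              unionOf M II.1 = unionOf M II.2)) := by
        refine Pr_mono h0.le h1.le fun M hM => ?_
        by_contra hcon
        push Not at hcon
        apply hM
        refine str_of_large hn hj hm M (fun I hI => not_lt.mpr (hcon.1 I hI)) ?_
        intro I hI I' hI' hne
        exact hcon.2 (I, I') (Finset.mem_filter.mpr ⟨Finset.mem_product.mpr ⟨hI, hI'⟩, hne⟩)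
    _ ≤ _ := Pr_or h0.le h1.le _ _
    _ ≤ (∑ I ∈ powersetCard j (univ : Finset (Fin m)),
          Pr p (fun M : Mat m n => 5 * (unionOf M I).card < 3 * n)) +
        (∑ II ∈ ((powersetCard j (univ : Finset (Fin m))) ×ˢ
            (powersetCard j (univ : Finset (Fin m)))).filter (fun II => II.1 ≠ II.2),
              Pr p (fun M : Mat m n => unionOf M II.1 = unionOf M II.2)) :=
        add_le_add (Pr_exists h0.le h1.le _ _) (Pr_exists h0.le h1.le _ _)
    _ ≤ (∑ I ∈ powersetCard j (univ : Finset (Fin m)), (1 / 3 : ℝ) ^ n) +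
        (∑ II ∈ ((powersetCard j (univ : Finset (Fin m))) ×ˢ
            (powersetCard j (univ : Finset (Fin m)))), (1 - (1 - p) ^ j * p) ^ n) := by
        refine add_le_add ?_ ?_
        · refine Finset.sum_le_sum fun I hI => ?_
          refine (Pr_small h0 h1 I).trans ?_
          rw [(Finset.mem_powersetCard.mp hI).2]
          refine pow_le_pow_left₀ (by positivity) ?_ _
          linarith
        · have hβ : 0 ≤ 1 - (1 - p) ^ j * p := by nlinarith
          refine le_trans (Finset.sum_le_sum fun II hII => ?_)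
            (Finset.sum_le_sum_of_subset_of_nonneg (Finset.filter_subset _ _)
              (fun _ _ _ => pow_nonneg hβ _))
          rw [Finset.mem_filter, Finset.mem_product] at hII
          have e1 := (Finset.mem_powersetCard.mp hII.1.1).2
          have e2 := (Finset.mem_powersetCard.mp hII.1.2).2
          refine (Pr_coll h0 h1 II.1 II.2 (e1.trans e2.symm) hII.2).trans ?_
          rw [e2]
    _ ≤ _ := by
        have hβ : 0 ≤ 1 - (1 - p) ^ j * p := by nlinarith
        rw [Finset.sum_const, Finset.sum_const, nsmul_eq_mul, nsmul_eq_mul, Finset.card_product]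
        refine add_le_add (mul_le_mul_of_nonneg_right hch (by positivity)) ?_
        refine mul_le_mul_of_nonneg_right ?_ (pow_nonneg hβ _)
        push_cast
        rw [two_mul, pow_add]
        exact mul_le_mul hch hch (by positivity) (by positivity)

lemma Pr_small_m {p : ℝ} (h0 : 0 < p) (h1 : p < 1) {m n m0 : ℕ} (hm : 0 < m) (hm0 : m ≤ m0) :
    Pr p (fun M : Mat m n => ¬ Str M) ≤ (1 - p ^ m0) ^ n := by
  calc Pr p (fun M : Mat m n => ¬ Str M) ≤ Pr p (fun M : Mat m n => ¬ ∃ x, ∀ i, M i x = true) := by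
        refine Pr_mono h0.le h1.le fun M hM h => hM (str_of_common hm M h)
    _ = (1 - p ^ m) ^ n := Pr_common p m n
    _ ≤ (1 - p ^ m0) ^ n := by
        have h2 : p ^ m0 ≤ p ^ m := pow_le_pow_of_le_one h0.le h1.le hm0
        have h3 : p ^ m ≤ 1 := pow_le_one₀ h0.le h1.le
        exact pow_le_pow_left₀ (by linarith) (by linarith) _

/-- Regime I -/
theorem reg1 {p : ℝ} (h0 : 0 < p) (h1 : p < 1) {C : ℝ} (hC : 0 < C) {ε : ℝ} (hε : 0 < ε) :
    ∃ n0 : ℕ, ∀ n m : ℕ, n0 ≤ n → 0 < m → (m : ℝ) ≤ C * n →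
      Pr p (fun M : Mat m n => ¬ Str M) ≤ ε := by
  obtain ⟨j', hj'⟩ := exists_pow_lt_of_lt_one (show (0:ℝ) < 1 / 100 by norm_num)
    (show 1 - p < 1 by linarith)
  set j := j' + 1 with hjdef
  have hq : (1 - p) ^ j ≤ 1 / 100 := by
    refine le_trans ?_ hj'.le
    exact pow_le_pow_of_le_one (by linarith) (by linarith) (by omega)
  have hj : 0 < j := by omega
  set m0 := 5 * j * (j.factorial * 2 ^ j) + 2 * j with hm0
  have hβ1 : 1 - (1 - p) ^ j * p < 1 := by
    have : 0 < (1 - p) ^ j := pow_pos (by linarith) _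
    nlinarith
  have hβ0 : 0 ≤ 1 - (1 - p) ^ j * p := by
    have : (1 - p) ^ j ≤ 1 := pow_le_one₀ (by linarith) (by linarith)
    have : 0 ≤ (1 - p) ^ j := pow_nonneg (by linarith) _
    nlinarith
  have t1 := tendsto_poly_exp C j (show (0:ℝ) ≤ 1 / 3 by norm_num) (by norm_num)
  have t2 := tendsto_poly_exp C (2 * j) hβ0 hβ1
  have hp0 : (0:ℝ) < p ^ m0 := pow_pos h0 _
  have hp1 : p ^ m0 ≤ 1 := pow_le_one₀ h0.le h1.le
  have t3 := tendsto_pow_atTop_nhds_zero_of_lt_one (show (0:ℝ) ≤ 1 - p ^ m0 by linarith)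
    (show 1 - p ^ m0 < 1 by linarith)
  have e1 := t1.eventually (gt_mem_nhds (show (0:ℝ) < ε / 2 by linarith))
  have e2 := t2.eventually (gt_mem_nhds (show (0:ℝ) < ε / 2 by linarith))
  have e3 := t3.eventually (gt_mem_nhds hε)
  obtain ⟨n0, hn0⟩ := Filter.eventually_atTop.mp (e1.and (e2.and (e3.and (Filter.eventually_gt_atTop 0))))
  refine ⟨n0, fun n m hn hm hmC => ?_⟩
  obtain ⟨g1, g2, g3, g4⟩ := hn0 n hn
  by_cases hmm : m0 ≤ m
  · refine (Pr_reg1 h0 h1 g4 hj hmm hq).trans ?_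
    have b1 : (m : ℝ) ^ j * (1 / 3) ^ n ≤ (C * (n:ℝ)) ^ j * (1 / 3) ^ n :=
      mul_le_mul_of_nonneg_right (pow_le_pow_left₀ (by positivity) hmC _) (by positivity)
    have b2 : (m : ℝ) ^ (2 * j) * (1 - (1 - p) ^ j * p) ^ n ≤
        (C * (n:ℝ)) ^ (2 * j) * (1 - (1 - p) ^ j * p) ^ n :=
      mul_le_mul_of_nonneg_right (pow_le_pow_left₀ (by positivity) hmC _) (pow_nonneg hβ0 _)
    linarith
  · exact (Pr_small_m h0 h1 hm (by omega : m ≤ m0)).trans g3.le

lemma str_case1 {m n t : ℕ} (hn : 0 < n) (ht : n ≤ 2 * t) (M : Mat m n) (h : Top t M) :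
    Str M := by
  by_cases hu : fam M = univ
  · exact Or.inr (Or.inl hu)
  apply str_of_W
  obtain ⟨N, rfl⟩ : ∃ N, n = N + 1 := ⟨n - 1, by omega⟩
  have h0 : ∑ A : Finset (Fin (N + 1)), (2 * (A.card : ℝ) - ((N + 1 : ℕ) : ℝ)) = 0 := by
    have h1 := sum_top (n := N + 1) (t := N + 1) (by omega) le_rfl
    rw [Finset.filter_true_of_mem (fun A _ => by omega)] at h1
    rw [h1]
    simp
  unfold W
  have hne : (univ \ fam M).Nonempty := by
    rw [Finset.nonempty_iff_ne_empty, Ne, Finset.sdiff_eq_empty_iff_subset]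
    intro hs
    exact hu (Finset.Subset.antisymm (Finset.subset_univ _) hs)
  have h2 : ∑ A ∈ (univ \ fam M), (2 * (A.card : ℝ) - ((N + 1 : ℕ) : ℝ)) < 0 := by
    refine Finset.sum_neg (fun A hA => ?_) hne
    rw [Finset.mem_sdiff] at hA
    have h3 : ¬ (N + 1 ≤ A.card + t) := fun h' => hA.2 (h A h')
    have h4 : 2 * A.card < N + 1 := by omega
    have h5 : (2 * (A.card : ℝ)) < ((N + 1 : ℕ) : ℝ) := by exact_mod_cast h4
    linarith
  have h3 := Finset.sum_sdiff (Finset.subset_univ (fam M)) (f := fun A : Finset (Fin (N + 1)) =>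
    (2 * (A.card : ℝ) - ((N + 1 : ℕ) : ℝ)))
  linarith

lemma str_case2 {m n t : ℕ} (hn : 0 < n) (ht : 2 * t < n) (M : Mat m n) (h : Top t M)
    (hl : cnt ((n - 1) / 2) M < ((n - 1).choose t : ℝ)) : Str M := by
  apply str_of_W
  refine lt_of_lt_of_le ?_ (W_of_top hn M ht h)
  rw [sub_pos]
  have hlow : Low M ≤ n * cnt ((n - 1) / 2) M := by
    unfold Low cnt
    have e : (fam M).filter (fun A => 2 * A.card < n) = (fam M).filter (fun A => A.card ≤ (n - 1) / 2) := by
      refine Finset.filter_congr fun A _ => ?_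
      omega
    rw [e]
    calc ∑ A ∈ (fam M).filter (fun A => A.card ≤ (n - 1) / 2), ((n : ℝ) - 2 * A.card)
        ≤ ∑ A ∈ (fam M).filter (fun A => A.card ≤ (n - 1) / 2), (n : ℝ) := by
          refine Finset.sum_le_sum fun A _ => ?_
          have : (0:ℝ) ≤ A.card := by positivity
          linarith
      _ = _ := by rw [Finset.sum_const, nsmul_eq_mul, mul_comm]
  have hnr : (0 : ℝ) < n := by exact_mod_cast hn
  exact hlow.trans_lt (mul_lt_mul_of_pos_left hl hnr)

lemma str_case3 {m n t r : ℕ} (hn : 0 < n) (ht : t ≤ (n - 1) / 2) (hr : r ≤ (n - 1) / 2)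
    (htr : (n - 1) / 2 - r ≤ t) (M : Mat m n) (h : Top t M)
    (hb : (3 / 4 : ℝ) * ((n - 1).choose ((n - 1) / 2) : ℝ) ≤ ((n - 1).choose ((n - 1) / 2 - r) : ℝ))
    (hl : cnt ((n - 1) / 2 - r) M < ((n - 1).choose ((n - 1) / 2) : ℝ) / 2) : Str M := by
  apply str_of_W
  refine lt_of_lt_of_le ?_ (W_of_top hn M (by omega) h)
  rw [sub_pos]
  set H := (n - 1) / 2 with hH
  have hlow : Low M ≤ n * cnt (H - r) M +
      (n * ((n - 1).choose H : ℝ) - n * ((n - 1).choose (H - r) : ℝ)) := by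
    have s1 := sum_bot (n := n) (t := H) hn (by omega)
    have s2 := sum_bot (n := n) (t := H - r) hn (by omega)
    rw [← s1, ← s2]
    unfold Low cnt
    have e : (fam M).filter (fun A => 2 * A.card < n) =
        (fam M).filter (fun A => A.card ≤ H - r) ∪
        (fam M).filter (fun A => H - r < A.card ∧ A.card ≤ H) := by
      ext A
      simp only [Finset.mem_union, Finset.mem_filter]
      constructor
      · rintro ⟨h1, h2⟩
        by_cases h3 : A.card ≤ H - r
        · exact Or.inl ⟨h1, h3⟩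
        · exact Or.inr ⟨h1, by omega, by omega⟩
      · rintro (⟨h1, h2⟩ | ⟨h1, h2, h3⟩)
        · exact ⟨h1, by omega⟩
        · exact ⟨h1, by omega⟩
    have hd : Disjoint ((fam M).filter (fun A => A.card ≤ H - r))
        ((fam M).filter (fun A => H - r < A.card ∧ A.card ≤ H)) := by
      rw [Finset.disjoint_left]
      intro A h1 h2
      rw [Finset.mem_filter] at h1 h2
      omega
    rw [e, Finset.sum_union hd]
    have e2 : (univ : Finset (Finset (Fin n))).filter (fun A => A.card ≤ H) =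
        univ.filter (fun A => A.card ≤ H - r) ∪ univ.filter (fun A => H - r < A.card ∧ A.card ≤ H) := by
      ext A
      simp only [Finset.mem_union, Finset.mem_filter, Finset.mem_univ, true_and]
      omega
    have hd2 : Disjoint ((univ : Finset (Finset (Fin n))).filter (fun A => A.card ≤ H - r))
        (univ.filter (fun A => H - r < A.card ∧ A.card ≤ H)) := by
      rw [Finset.disjoint_left]
      intro A h1 h2
      rw [Finset.mem_filter] at h1 h2
      omega
    rw [e2, Finset.sum_union hd2, add_sub_cancel_left]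
    refine add_le_add ?_ ?_
    · calc ∑ A ∈ (fam M).filter (fun A => A.card ≤ H - r), ((n : ℝ) - 2 * A.card)
          ≤ ∑ A ∈ (fam M).filter (fun A => A.card ≤ H - r), (n : ℝ) := by
            refine Finset.sum_le_sum fun A _ => ?_
            have h9 : (0:ℝ) ≤ A.card := by positivity
            linarith
        _ = _ := by rw [Finset.sum_const, nsmul_eq_mul, mul_comm]
    · refine Finset.sum_le_sum_of_subset_of_nonneg ?_ ?_
      · intro A hA
        rw [Finset.mem_filter] at hA ⊢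
        exact ⟨Finset.mem_univ _, hA.2⟩
      · intro A hA _
        rw [Finset.mem_filter] at hA
        have : 2 * A.card ≤ n := by omega
        have h5 : (2 * (A.card : ℝ)) ≤ (n : ℝ) := by exact_mod_cast this
        linarith
  refine hlow.trans_lt ?_
  have hmono : ((n - 1).choose (H - r) : ℝ) ≤ ((n - 1).choose t : ℝ) := by
    exact_mod_cast bin_mono' htr ht
  have hn' : (0:ℝ) < n := by exact_mod_cast hn
  have h5 : cnt (H - r) M + (((n - 1).choose H : ℝ) - ((n - 1).choose (H - r) : ℝ)) <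
      ((n - 1).choose t : ℝ) := by
    have : (0:ℝ) ≤ ((n - 1).choose H : ℝ) := by positivity
    linarith
  have := mul_lt_mul_of_pos_left h5 hn'
  linarith

/-- the estimate for many rows, with the parameters -/
lemma Pr_reg2 {p : ℝ} (h0 : 0 < p) (h1 : p < 1) {ε : ℝ} (hε : 0 < ε) {m n t0 r J : ℕ} (hn : 0 < n)
    {K : ℝ} (hK1 : 1 ≤ K) (hK : 2 * n = K * (p * (1 - p)))
    (hJ : (1 - p) ^ J ≤ 1 / 4) (hj : ∀ j < J, 1 ≤ 4 * (1 - p) ^ j)
    (hm : (2 : ℝ) * n ≤ m * (p * (1 - p) ^ t0))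
    (a1 : (n : ℝ) * (1 / 3) ^ n ≤ ε / 2)
    (a2 : 2 / ε * ((J + 1) * K ^ J) * 4 ^ t0 ≤ ((n - 1).choose t0 : ℝ))
    (a3 : 2 / ε * ((J + 1) * K ^ J) * 4 ^ ((n - 1) / 2 - r) ≤ ((n - 1).choose ((n - 1) / 2 - r) : ℝ))
    (a4 : 8 * r ^ 2 ≤ (n - 1) / 2) (a5 : r ≤ (n - 1) / 2)
    (a6 : 4 * n / 2 ^ n + 4 * n * (K * (1 - p) ^ r) ≤ ε / 2) :
    Pr p (fun M : Mat m n => ¬ Str M) ≤ ε := by
  have hq0 : 0 < 1 - p := by linarith
  -- choose `t`
  have hex : ∃ t : ℕ, (m : ℝ) * (p * (1 - p) ^ t) < 2 * n := by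
    have ht : Tendsto (fun t : ℕ => (m : ℝ) * (p * (1 - p) ^ t)) atTop (nhds 0) := by
      have := ((tendsto_pow_atTop_nhds_zero_of_lt_one hq0.le (by linarith : 1 - p < 1)).const_mul
        p).const_mul (m : ℝ)
      simpa using this
    have hpos : (0:ℝ) < 2 * n := by
      have : (0:ℝ) < n := by exact_mod_cast hn
      linarith
    exact (ht.eventually (gt_mem_nhds hpos)).exists
  obtain ⟨t, ht0, htge, htlt⟩ : ∃ t, t0 ≤ t ∧ (2 : ℝ) * n ≤ m * (p * (1 - p) ^ t) ∧
      (m : ℝ) * (p * (1 - p) ^ (t + 1)) < 2 * n := by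
    have hs := Nat.find_spec hex
    set T := Nat.find hex with hT
    have hT0 : t0 < T := by
      by_contra hcon
      push Not at hcon
      have h3 : (1 - p) ^ t0 ≤ (1 - p) ^ T :=
        pow_le_pow_of_le_one hq0.le (by linarith) hcon
      have h4 : (m : ℝ) * (p * (1 - p) ^ t0) ≤ (m : ℝ) * (p * (1 - p) ^ T) :=
        mul_le_mul_of_nonneg_left (mul_le_mul_of_nonneg_left h3 h0.le) (by positivity)
      linarith
    refine ⟨T - 1, by omega, ?_, ?_⟩
    · have := Nat.find_min hex (m := T - 1) (by omega)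
      exact not_lt.mp this
    · rw [Nat.sub_add_cancel (by omega)]; exact hs
  have hmK : (m : ℝ) * (1 - p) ^ t ≤ K := by
    have h3 : (m : ℝ) * (p * (1 - p) ^ (t + 1)) = ((m : ℝ) * (1 - p) ^ t) * (p * (1 - p)) := by ring
    rw [h3, hK] at htlt
    exact (lt_of_mul_lt_mul_right htlt (by positivity)).le
  have htop := (Pr_top_exp h0 h1 htge).trans a1
  by_cases c1 : n ≤ 2 * t
  · refine le_trans (Pr_mono h0.le h1.le fun M hM => ?_) (htop.trans (by linarith))
    exact fun h => hM (str_case1 hn c1 M h)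
  push Not at c1
  have hH : t ≤ (n - 1) / 2 := by omega
  by_cases c2 : t ≤ (n - 1) / 2 - r
  · -- second case
    have hbin := bin_between ht0 c2 a2 a3
    have hCpos : (0:ℝ) < ((n - 1).choose t : ℝ) := by
      exact_mod_cast Nat.choose_pos (by omega)
    have hmk := markov h0.le h1.le (m := m) (n := n) (fun M => cnt ((n - 1) / 2) M)
      (fun M => cnt_nonneg M) ((n - 1).choose t : ℝ)
    have hE := Ex_cnt2 h0 h1 (m := m) hn c1 hK1 hmK hJ hj
    have h5 : ((n - 1).choose t : ℝ) * Pr p (fun M : Mat m n => ((n - 1).choose t : ℝ) ≤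
        cnt ((n - 1) / 2) M) ≤ ((n - 1).choose t : ℝ) * (ε / 2) := by
      refine hmk.trans (hE.trans ?_)
      have h6 : (J + 1) * K ^ J * 4 ^ t = (2 / ε * ((J + 1) * K ^ J) * 4 ^ t) * (ε / 2) := by
        field_simp
      rw [h6]
      exact mul_le_mul_of_nonneg_right hbin (by linarith)
    have h7 := le_of_mul_le_mul_left h5 hCpos
    calc Pr p (fun M : Mat m n => ¬ Str M)
        ≤ Pr p (fun M : Mat m n => ¬ Top t M ∨ ((n - 1).choose t : ℝ) ≤ cnt ((n - 1) / 2) M) := by
          refine Pr_mono h0.le h1.le fun M hM => ?_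
          by_contra hcon
          push Not at hcon
          exact hM (str_case2 hn c1 M hcon.1 hcon.2)
      _ ≤ _ := Pr_or h0.le h1.le _ _
      _ ≤ ε / 2 + ε / 2 := add_le_add htop h7
      _ = ε := by ring
  · -- third case
    have hb := bin_mid a4 a5
    have hCpos : (0:ℝ) < ((n - 1).choose ((n - 1) / 2) : ℝ) := by
      exact_mod_cast Nat.choose_pos (by omega)
    have hmk := markov h0.le h1.le (m := m) (n := n) (fun M => cnt ((n - 1) / 2 - r) M)
      (fun M => cnt_nonneg M) (((n - 1).choose ((n - 1) / 2) : ℝ) / 2)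
    have hE := Ex_cnt3 h0 h1 (m := m) hn hH a5 (by linarith : 0 ≤ K) hmK
    have hmid := two_pow_le_mid (n - 1)
    have hn1 : (((n - 1 : ℕ) : ℝ) + 1) = n := by
      rw [Nat.cast_sub (by omega)]; push_cast; ring
    rw [hn1] at hmid
    have hnpos : (0:ℝ) < n := by exact_mod_cast hn
    have h2n : (2:ℝ) ^ n = 2 * 2 ^ (n - 1) := by
      rw [← pow_succ', Nat.sub_add_cancel (by omega)]
    have h5 : (((n - 1).choose ((n - 1) / 2) : ℝ) / 2) * Pr p (fun M : Mat m n =>
        ((n - 1).choose ((n - 1) / 2) : ℝ) / 2 ≤ cnt ((n - 1) / 2 - r) M) ≤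
        (((n - 1).choose ((n - 1) / 2) : ℝ) / 2) * (ε / 2) := by
      refine hmk.trans (hE.trans ?_)
      have h6 : 1 + 2 ^ n * (K * (1 - p) ^ r) =
          (2 ^ n / (4 * n)) * (4 * n / 2 ^ n + 4 * n * (K * (1 - p) ^ r)) := by
        field_simp
      rw [h6]
      have h7 : (2:ℝ) ^ n / (4 * n) ≤ ((n - 1).choose ((n - 1) / 2) : ℝ) / 2 := by
        rw [div_le_iff₀ (by positivity), h2n]
        nlinarith
      refine mul_le_mul h7 a6 (by positivity) (by positivity)
    have h7 := le_of_mul_le_mul_left h5 (by positivity)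
    calc Pr p (fun M : Mat m n => ¬ Str M)
        ≤ Pr p (fun M : Mat m n => ¬ Top t M ∨
            ((n - 1).choose ((n - 1) / 2) : ℝ) / 2 ≤ cnt ((n - 1) / 2 - r) M) := by
          refine Pr_mono h0.le h1.le fun M hM => ?_
          by_contra hcon
          push Not at hcon
          exact hM (str_case3 hn hH a5 (by omega) M hcon.1 hb hcon.2)
      _ ≤ _ := Pr_or h0.le h1.le _ _
      _ ≤ ε / 2 + ε / 2 := add_le_add htop h7
      _ = ε := by ring

/-- Regime II -/
theorem reg2 {p : ℝ} (h0 : 0 < p) (h1 : p < 1) :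
    ∃ t0 : ℕ, ∀ ε : ℝ, 0 < ε → ∃ n0 : ℕ, ∀ n m : ℕ, n0 ≤ n →
      (2 : ℝ) * n ≤ m * (p * (1 - p) ^ t0) → Pr p (fun M : Mat m n => ¬ Str M) ≤ ε := by
  have hq0 : 0 < 1 - p := by linarith
  have hexJ : ∃ J : ℕ, (1 - p) ^ J ≤ 1 / 4 := by
    obtain ⟨J, hJ⟩ := exists_pow_lt_of_lt_one (show (0:ℝ) < 1 / 4 by norm_num)
      (show 1 - p < 1 by linarith)
    exact ⟨J, hJ.le⟩
  have hJ := Nat.find_spec hexJ
  have hJmin := fun j => Nat.find_min hexJ (m := j)
  set J := Nat.find hexJ with hJdef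
  have hj : ∀ j < J, 1 ≤ 4 * (1 - p) ^ j := by
    intro j hjJ
    have := hJmin j hjJ
    push Not at this
    linarith
  refine ⟨J + 1, fun ε hε => ?_⟩
  set c : ℝ := 2 / (p * (1 - p)) with hc
  have hpq : 0 < p * (1 - p) := mul_pos h0 hq0
  have hcpos : 0 < c := by positivity
  have hc1 : 1 ≤ c := by
    rw [hc, le_div_iff₀ hpq]
    nlinarith
  set D := 2 * (J + 1) with hD
  have hDq : (1 - p) ^ D ≤ 1 / 16 := by
    calc (1 - p) ^ D = ((1 - p) ^ (J + 1)) ^ 2 := by rw [← pow_mul, hD, mul_comm]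
      _ ≤ ((1 - p) ^ J) ^ 2 := by
        refine pow_le_pow_left₀ (by positivity) ?_ _
        exact pow_le_pow_of_le_one hq0.le (by linarith) (by omega)
      _ ≤ (1 / 4) ^ 2 := pow_le_pow_left₀ (by positivity) hJ _
      _ = 1 / 16 := by norm_num
  obtain ⟨n1, hn1⟩ := log_small D
  have T1 := tendsto_poly_exp 1 1 (show (0:ℝ) ≤ 1 / 3 by norm_num) (by norm_num)
  have T2 := tendsto_poly_exp 4 1 (show (0:ℝ) ≤ 1 / 2 by norm_num) (by norm_num)
  have E1 := T1.eventually (gt_mem_nhds (show (0:ℝ) < ε / 2 by linarith))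
  have E2 := T2.eventually (gt_mem_nhds (show (0:ℝ) < ε / 4 by linarith))
  have T3 : Tendsto (fun n : ℕ => (n : ℝ)) atTop atTop := tendsto_natCast_atTop_atTop
  have E3 := T3.eventually (eventually_ge_atTop
    (2 / ε * ((J + 1) * c ^ J) * 4 ^ (J + 1) * 2 ^ (J + 1) * ((J + 1).factorial : ℝ)))
  have E4 := T3.eventually (eventually_ge_atTop (4 / ε * ((J + 1) * c ^ J)))
  have E5 := T3.eventually (eventually_ge_atTop (16 * c / ε))
  obtain ⟨n0, hn0⟩ := Filter.eventually_atTop.mp (E1.and (E2.and (E3.and (E4.and (E5.and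
    ((eventually_ge_atTop n1).and (eventually_ge_atTop (2 * (J + 1)))))))))
  refine ⟨n0, fun n m hn hm => ?_⟩
  obtain ⟨g1, g2, g3, g4, g5, g6, g7⟩ := hn0 n hn
  have hnpos : 0 < n := by omega
  have hn1r : (1:ℝ) ≤ n := by exact_mod_cast hnpos
  have hnr : (0:ℝ) < n := by linarith
  have hlog := hn1 n g6
  set L := Nat.log 2 n + 1 with hL
  set r := D * L with hr
  have hnL : n ≤ 2 ^ L := (Nat.lt_pow_succ_log_self (by norm_num) n).le
  have hnLr : (n : ℝ) ≤ 2 ^ L := by exact_mod_cast hnL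
  have a4 : 8 * r ^ 2 ≤ (n - 1) / 2 := by omega
  have a5 : r ≤ (n - 1) / 2 := by
    have : r ≤ 8 * r ^ 2 := by nlinarith [Nat.zero_le r]
    omega
  have hKpos : 1 ≤ c * n := by nlinarith
  have hmid := bin_mid a4 a5
  have h4r : (n : ℝ) ^ (J + 2) ≤ 4 ^ r := by
    calc (n : ℝ) ^ (J + 2) ≤ (n : ℝ) ^ (2 * D) := pow_le_pow_right₀ hn1r (by omega)
      _ ≤ (2 ^ L) ^ (2 * D) := pow_le_pow_left₀ hnr.le hnLr _
      _ = 4 ^ r := by
        rw [← pow_mul, show (4:ℝ) = 2 ^ 2 by norm_num, ← pow_mul, hr]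
        congr 1; ring
  have hqr : (n : ℝ) ^ 4 * (1 - p) ^ r ≤ 1 := by
    calc (n : ℝ) ^ 4 * (1 - p) ^ r ≤ (2 ^ L) ^ 4 * ((1 - p) ^ D) ^ L := by
          rw [hr, pow_mul]
          exact mul_le_mul_of_nonneg_right (pow_le_pow_left₀ hnr.le hnLr _) (by positivity)
      _ ≤ (2 ^ L) ^ 4 * (1 / 16) ^ L :=
          mul_le_mul_of_nonneg_left (pow_le_pow_left₀ (by positivity) hDq _) (by positivity)
      _ = 1 := by
          rw [← pow_mul, mul_comm L 4, pow_mul, ← mul_pow]; norm_num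
  refine Pr_reg2 h0 h1 hε (t0 := J + 1) (r := r) (J := J) hnpos (K := c * n) hKpos ?_ hJ hj hm
    ?_ ?_ ?_ a4 a5 ?_
  · rw [hc]; field_simp
  · simpa using g1.le
  · -- a2
    have hpc := Nat.pow_le_choose (α := ℝ) (J + 1) (n - 1)
    have hfac : (0:ℝ) < ((J + 1).factorial : ℝ) := by exact_mod_cast (J + 1).factorial_pos
    refine le_trans ?_ hpc
    rw [le_div_iff₀ hfac]
    have h5 : (n : ℝ) ≤ 2 * ((n - 1 + 1 - (J + 1) : ℕ) : ℝ) := by
      have : n ≤ 2 * (n - 1 + 1 - (J + 1)) := by omega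
      exact_mod_cast this
    have h6 : (n : ℝ) ^ (J + 1) ≤ 2 ^ (J + 1) * ((n - 1 + 1 - (J + 1) : ℕ) : ℝ) ^ (J + 1) := by
      rw [← mul_pow]; exact pow_le_pow_left₀ hnr.le h5 _
    have h7 : (2 ^ (J + 1) : ℝ) * (2 / ε * ((J + 1) * (c * n) ^ J) * 4 ^ (J + 1) *
        ((J + 1).factorial : ℝ)) ≤ 2 ^ (J + 1) * ((n - 1 + 1 - (J + 1) : ℕ) : ℝ) ^ (J + 1) := by
      calc (2 ^ (J + 1) : ℝ) * (2 / ε * ((J + 1) * (c * n) ^ J) * 4 ^ (J + 1) *
            ((J + 1).factorial : ℝ))
          = (2 / ε * ((J + 1) * c ^ J) * 4 ^ (J + 1) * 2 ^ (J + 1) * ((J + 1).factorial : ℝ)) *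
              (n : ℝ) ^ J := by rw [mul_pow]; ring
        _ ≤ n * (n : ℝ) ^ J := mul_le_mul_of_nonneg_right g3 (by positivity)
        _ = (n : ℝ) ^ (J + 1) := by rw [pow_succ]; ring
        _ ≤ _ := h6
    have h8 := le_of_mul_le_mul_left h7 (by positivity)
    exact_mod_cast h8
  · -- a3
    set H := (n - 1) / 2 with hH
    have hmid2 := two_pow_le_mid (n - 1)
    have hn1' : (((n - 1 : ℕ) : ℝ) + 1) = n := by
      rw [Nat.cast_sub (by omega)]; push_cast; ring
    rw [hn1'] at hmid2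
    have h4H : (4:ℝ) ^ H ≤ 2 ^ (n - 1) := by
      rw [show (4:ℝ) = 2 ^ 2 by norm_num, ← pow_mul]
      exact pow_le_pow_right₀ (by norm_num) (by omega)
    have h4H2 : (4:ℝ) ^ H = 4 ^ (H - r) * 4 ^ r := by
      rw [← pow_add]; congr 1; omega
    have hX : 2 / ε * ((J + 1) * (c * n) ^ J) * n ≤ 3 / 4 * 4 ^ r := by
      calc 2 / ε * ((J + 1) * (c * n) ^ J) * n
          = (1 / 2) * ((4 / ε * ((J + 1) * c ^ J)) * (n : ℝ) ^ (J + 1)) := by
            rw [mul_pow, pow_succ]; ring
        _ ≤ (1 / 2) * (n * (n : ℝ) ^ (J + 1)) := by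
            refine mul_le_mul_of_nonneg_left ?_ (by norm_num)
            exact mul_le_mul_of_nonneg_right g4 (by positivity)
        _ = (1 / 2) * (n : ℝ) ^ (J + 2) := by ring
        _ ≤ 3 / 4 * 4 ^ r := by
            have : (0:ℝ) ≤ 4 ^ r := by positivity
            linarith
    have h9 : (n : ℝ) * (2 / ε * ((J + 1) * (c * n) ^ J) * 4 ^ (H - r)) ≤
        n * ((n - 1).choose (H - r) : ℝ) := by
      calc (n : ℝ) * (2 / ε * ((J + 1) * (c * n) ^ J) * 4 ^ (H - r))
          = (2 / ε * ((J + 1) * (c * n) ^ J) * n) * 4 ^ (H - r) := by ring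
        _ ≤ (3 / 4 * 4 ^ r) * 4 ^ (H - r) := mul_le_mul_of_nonneg_right hX (by positivity)
        _ = 3 / 4 * 4 ^ H := by rw [h4H2]; ring
        _ ≤ 3 / 4 * (n * ((n - 1).choose H : ℝ)) :=
            mul_le_mul_of_nonneg_left (h4H.trans hmid2) (by norm_num)
        _ = n * (3 / 4 * ((n - 1).choose H : ℝ)) := by ring
        _ ≤ _ := mul_le_mul_of_nonneg_left hmid hnr.le
    exact le_of_mul_le_mul_left h9 hnr
  · -- a6
    have b1 : 4 * (n : ℝ) / 2 ^ n ≤ ε / 4 := by
      have : 4 * (n : ℝ) / 2 ^ n = (4 * (n : ℝ)) ^ 1 * (1 / 2) ^ n := by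
        rw [pow_one, one_div, inv_pow]; rfl
      rw [this]; exact g2.le
    have b2 : 4 * (n : ℝ) * (c * n * (1 - p) ^ r) ≤ ε / 4 := by
      have hq : 0 ≤ (1 - p) ^ r := by positivity
      have h10 : (n : ℝ) * (4 * (n : ℝ) * (c * n * (1 - p) ^ r)) ≤ 4 * c := by
        calc (n : ℝ) * (4 * (n : ℝ) * (c * n * (1 - p) ^ r))
            = 4 * c * ((n : ℝ) ^ 3 * (1 - p) ^ r) := by ring
          _ ≤ 4 * c * ((n : ℝ) ^ 4 * (1 - p) ^ r) := by
            refine mul_le_mul_of_nonneg_left ?_ (by positivity)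
            exact mul_le_mul_of_nonneg_right (pow_le_pow_right₀ hn1r (by norm_num)) hq
          _ ≤ 4 * c * 1 := mul_le_mul_of_nonneg_left hqr (by positivity)
          _ = 4 * c := mul_one _
      have h11 : 4 * c ≤ n * (ε / 4) := by
        rw [div_le_iff₀ hε] at g5
        linarith
      exact le_of_mul_le_mul_left (h10.trans h11) hnr
    linarith

/-- many columns -/
theorem large_n {p : ℝ} (h0 : 0 < p) (h1 : p < 1) {ε : ℝ} (hε : 0 < ε) :
    ∃ n0 : ℕ, ∀ n m : ℕ, n0 ≤ n → 0 < m → Pr p (fun M : Mat m n => ¬ Str M) ≤ ε := by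
  have hq0 : 0 < 1 - p := by linarith
  obtain ⟨t0, ht0⟩ := reg2 h0 h1
  obtain ⟨n2, hn2⟩ := ht0 ε hε
  have hpq : 0 < p * (1 - p) ^ t0 := by positivity
  obtain ⟨n1, hn1⟩ := reg1 h0 h1 (show (0:ℝ) < 2 / (p * (1 - p) ^ t0) by positivity) hε
  refine ⟨max n1 n2, fun n m hn hm => ?_⟩
  by_cases h : (2 : ℝ) * n ≤ m * (p * (1 - p) ^ t0)
  · exact hn2 n m (le_trans (le_max_right _ _) hn) h
  · push Not at h
    refine hn1 n m (le_trans (le_max_left _ _) hn) hm ?_
    rw [div_mul_eq_mul_div, le_div_iff₀ hpq]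
    exact h.le

/-- main theorem: one side -/
theorem main_one {p : ℝ} (h0 : 0 < p) (h1 : p < 1) {ε : ℝ} (hε : 0 < ε) :
    ∃ N : ℕ, ∀ m n : ℕ, 0 < m → 0 < n → N ≤ m + n →
      Pr p (fun M : Mat m n => ¬ Str M) ≤ ε := by
  have hq0 : 0 < 1 - p := by linarith
  obtain ⟨n0, hn0⟩ := large_n h0 h1 hε
  have hpq : 0 < p * (1 - p) ^ n0 := by positivity
  have hpq1 : p * (1 - p) ^ n0 ≤ 1 := by
    have : (1 - p) ^ n0 ≤ 1 := pow_le_one₀ hq0.le (by linarith)
    nlinarith
  have T := (tendsto_pow_atTop_nhds_zero_of_lt_one (show 0 ≤ 1 - p * (1 - p) ^ n0 by linarith)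
    (show 1 - p * (1 - p) ^ n0 < 1 by linarith)).const_mul ((2:ℝ) ^ n0 * n0)
  rw [mul_zero] at T
  obtain ⟨m0, hm0⟩ := Filter.eventually_atTop.mp (T.eventually (gt_mem_nhds hε))
  refine ⟨n0 + m0, fun m n hm hn hmn => ?_⟩
  by_cases hnn : n0 ≤ n
  · exact hn0 n m hnn hm
  push Not at hnn
  have hmm : m0 ≤ m := by omega
  have htop := Pr_top h0 h1 m n n0
  calc Pr p (fun M : Mat m n => ¬ Str M) ≤ Pr p (fun M : Mat m n => ¬ Top n0 M) := by
        refine Pr_mono h0.le h1.le fun M hM => ?_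
        exact fun h => hM (str_case1 hn (by omega) M h)
    _ ≤ 2 ^ n * (n * (1 - p * (1 - p) ^ n0) ^ m) := htop
    _ ≤ 2 ^ n0 * n0 * (1 - p * (1 - p) ^ n0) ^ m := by
        rw [← mul_assoc]
        refine mul_le_mul_of_nonneg_right ?_ (pow_nonneg (by linarith) _)
        refine mul_le_mul (pow_le_pow_right₀ (by norm_num) hnn.le) (by exact_mod_cast hnn.le)
          (by positivity) (by positivity)
    _ ≤ ε := (hm0 m hmm).le

end Pool.Agent.W912.PB
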